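import Pool.Agent.Lib.MP_e5c236_nt_cls.Core

/-!
A finite check that decides which reduced forms of a discriminant can represent a prime with
prescribed residues.
-/

namespace Pool.Agent.Lib.MP_e5c236_nt_cls

/-- No value of the form lies in the allowed residues for one of the moduli. -/
def obs (cond : List (ℕ × List ℕ)) (a b c : ℤ) : Bool :=
  cond.any fun q => (List.range q.1).all fun x => (List.range q.1).all fun y =>
    !(q.2.elem ((a * (x : ℤ) ^ 2 + b * (x : ℤ) * (y : ℤ) + c * (y : ℤ) ^ 2) % (q.1 : ℤ)).toNat)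

/-- `F` composed with the substitution `M` is `a x^2 + b x y + c y^2`. -/
def isTrans (F : ℤ × ℤ × ℤ) (a b c : ℤ) (M : ℤ × ℤ × ℤ × ℤ) : Bool :=
  (F.1 * M.1 ^ 2 + F.2.1 * M.1 * M.2.2.1 + F.2.2 * M.2.2.1 ^ 2 == a) &&
  ((2 * F.1 * M.1 * M.2.1 + F.2.1 * (M.1 * M.2.2.2 + M.2.1 * M.2.2.1) +
    2 * F.2.2 * M.2.2.1 * M.2.2.2 == b) &&
  (F.1 * M.2.1 ^ 2 + F.2.1 * M.2.1 * M.2.2.2 + F.2.2 * M.2.2.2 ^ 2 == c))

/-- The check for one pair `(a, b)`. -/
def check1 (D : ℤ) (F : ℤ × ℤ × ℤ) (cond : List (ℕ × List ℕ)) (mats : List (ℤ × ℤ × ℤ × ℤ))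
    (a b : ℤ) : Bool :=
  (a == 0) || (decide (a.natAbs < b.natAbs) || (!((b * b - D) % (4 * a) == 0) ||
    (decide (((b * b - D) / (4 * a)).natAbs < a.natAbs) || ((decide (D < 0) && decide (a < 0)) ||
      (obs cond a b ((b * b - D) / (4 * a)) ||
        mats.any (isTrans F a b ((b * b - D) / (4 * a))))))))

/-- The complete check. -/
def check (D : ℤ) (F : ℤ × ℤ × ℤ) (cond : List (ℕ × List ℕ)) (mats : List (ℤ × ℤ × ℤ × ℤ))
    (K : ℕ) : Bool :=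
  (List.range (2 * K + 1)).all fun i => (List.range (2 * K + 1)).all fun j =>
    check1 D F cond mats ((i : ℤ) - K) ((j : ℤ) - K)

lemma not_obs {cond : List (ℕ × List ℕ)} {a b c : ℤ} {p : ℕ}
    (hc : ∀ q ∈ cond, p % q.1 ∈ q.2) (hq : ∀ q ∈ cond, 0 < q.1) (h : Rep a b c p) :
    obs cond a b c = false := by
  by_contra hcon
  rw [Bool.not_eq_false] at hcon
  unfold obs at hcon
  rw [List.any_eq_true] at hcon
  obtain ⟨q, hqm, hall⟩ := hcon
  rw [List.all_eq_true] at hall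
  obtain ⟨x, y, hxy⟩ := h
  have hq0 : 0 < q.1 := hq q hqm
  have hq0' : (0 : ℤ) < (q.1 : ℤ) := by exact_mod_cast hq0
  have hx1 : 0 ≤ x % (q.1 : ℤ) := Int.emod_nonneg _ hq0'.ne'
  have hx2 : x % (q.1 : ℤ) < q.1 := Int.emod_lt_of_pos _ hq0'
  have hy1 : 0 ≤ y % (q.1 : ℤ) := Int.emod_nonneg _ hq0'.ne'
  have hy2 : y % (q.1 : ℤ) < q.1 := Int.emod_lt_of_pos _ hq0'
  have h1 := hall (x % (q.1 : ℤ)).toNat (by rw [List.mem_range]; omega)
  rw [List.all_eq_true] at h1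
  have h2 := h1 (y % (q.1 : ℤ)).toNat (by rw [List.mem_range]; omega)
  rw [Int.toNat_of_nonneg hx1, Int.toNat_of_nonneg hy1] at h2
  have h3 : (a * (x % (q.1 : ℤ)) ^ 2 + b * (x % (q.1 : ℤ)) * (y % (q.1 : ℤ)) +
      c * (y % (q.1 : ℤ)) ^ 2) % (q.1 : ℤ) = (p : ℤ) % (q.1 : ℤ) := by
    rw [← hxy]
    have ex : x % (q.1 : ℤ) ≡ x [ZMOD (q.1 : ℤ)] := Int.mod_modEq x _
    have ey : y % (q.1 : ℤ) ≡ y [ZMOD (q.1 : ℤ)] := Int.mod_modEq y _
    exact (((ex.pow 2).mul_left a).add (((ex.mul_left b)).mul ey)).add ((ey.pow 2).mul_left c)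
  rw [h3] at h2
  have h4 : ((p : ℤ) % (q.1 : ℤ)).toNat = p % q.1 := by
    have : ((p : ℤ) % (q.1 : ℤ)) = ((p % q.1 : ℕ) : ℤ) := by push_cast; rfl
    rw [this]; exact Int.toNat_natCast _
  rw [h4] at h2
  have h5 := hc q hqm
  simp [List.elem_eq_mem, h5] at h2

lemma rep_of_isTrans {F : ℤ × ℤ × ℤ} {a b c : ℤ} {M : ℤ × ℤ × ℤ × ℤ} {n : ℤ}
    (h : isTrans F a b c M = true) (hr : Rep a b c n) : Rep F.1 F.2.1 F.2.2 n := by
  unfold isTrans at h
  simp only [Bool.and_eq_true, beq_iff_eq] at h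
  obtain ⟨h1, h2, h3⟩ := h
  obtain ⟨x, y, hxy⟩ := hr
  refine ⟨M.1 * x + M.2.1 * y, M.2.2.1 * x + M.2.2.2 * y, ?_⟩
  rw [← hxy, ← h1, ← h2, ← h3]; ring

theorem rep_of_check {D : ℤ} {F : ℤ × ℤ × ℤ} {cond : List (ℕ × List ℕ)}
    {mats : List (ℤ × ℤ × ℤ × ℤ)} {K : ℕ} (h : check D F cond mats K = true)
    (hsq : ¬ IsSquare D) (hD4 : D % 4 = 0 ∨ D % 4 = 1)
    (hK : (0 < D ∧ D < 4 * ((K : ℤ) + 1) ^ 2) ∨ (D < 0 ∧ -D < 3 * ((K : ℤ) + 1) ^ 2))
    {p : ℕ} (hp : p.Prime) (hp2 : p ≠ 2) (hz : ∃ z : ℤ, (p : ℤ) ∣ z ^ 2 - D)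
    (hc : ∀ q ∈ cond, p % q.1 ∈ q.2) (hq : ∀ q ∈ cond, 0 < q.1) :
    Rep F.1 F.2.1 F.2.2 p := by
  obtain ⟨b₀, c₀, h0⟩ := start hp hp2 hD4 hz
  obtain ⟨a, b, c, hd, hr, hba, hac⟩ := exists_reduced (n := (p : ℤ)) hsq _ (p : ℤ) b₀ c₀ rfl h0
    ⟨1, 0, by ring⟩
  have ha0 : a ≠ 0 := ne_zero_of_disc hsq hd
  have haK : |a| ≤ K := by
    by_contra hcon
    push Not at hcon
    have h1 : (K : ℤ) + 1 ≤ |a| := by omega
    have h2 : ((K : ℤ) + 1) ^ 2 ≤ |a| ^ 2 := pow_le_pow_left₀ (by positivity) h1 2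
    rcases hK with ⟨hD, hK⟩ | ⟨hD, hK⟩
    · have := bound_pos hD hd hba hac
      linarith
    · have := bound_neg hD hd hba hac
      linarith
  have hbK : |b| ≤ K := hba.trans haK
  have ha1 := abs_le.mp haK
  have hb1 := abs_le.mp hbK
  -- the check at `(a, b)`
  unfold check at h
  rw [List.all_eq_true] at h
  have h1 := h (a + K).toNat (by rw [List.mem_range]; omega)
  rw [List.all_eq_true] at h1
  have h2 := h1 (b + K).toNat (by rw [List.mem_range]; omega)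
  have e1 : (((a + K).toNat : ℕ) : ℤ) - K = a := by
    rw [Int.toNat_of_nonneg (by omega)]; ring
  have e2 : (((b + K).toNat : ℕ) : ℤ) - K = b := by
    rw [Int.toNat_of_nonneg (by omega)]; ring
  rw [e1, e2] at h2
  have hmul : b * b - D = 4 * a * c := by rw [← hd]; ring
  have hmod : (b * b - D) % (4 * a) = 0 := by rw [hmul]; exact Int.mul_emod_right _ _
  have hdiv : (b * b - D) / (4 * a) = c := by
    rw [hmul]; exact Int.mul_ediv_cancel_left _ (by simpa using ha0)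
  unfold check1 at h2
  rw [hdiv] at h2
  simp only [Bool.or_eq_true, beq_iff_eq, decide_eq_true_eq, Bool.not_eq_true', Bool.and_eq_true,
    beq_eq_false_iff_ne, ne_eq] at h2
  have hab' : b.natAbs ≤ a.natAbs := by
    have h3 := Int.natCast_natAbs a
    have h4 := Int.natCast_natAbs b
    omega
  have hac' : a.natAbs ≤ c.natAbs := by
    have h3 := Int.natCast_natAbs a
    have h4 := Int.natCast_natAbs c
    omega
  have hp0 : (0 : ℤ) < p := by exact_mod_cast hp.pos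
  rcases h2 with h2 | h2 | h2 | h2 | h2 | h2 | h2
  · exact absurd h2 ha0
  · omega
  · exact absurd hmod h2
  · omega
  · exfalso
    obtain ⟨hDn, han⟩ := h2
    obtain ⟨x, y, hxy⟩ := hr
    -- negative definite
    have hid : 4 * a * (a * x ^ 2 + b * x * y + c * y ^ 2) = (2 * a * x + b * y) ^ 2 - D * y ^ 2 := by
      rw [← hd]; ring
    have hge : 0 ≤ 4 * a * (a * x ^ 2 + b * x * y + c * y ^ 2) := by
      rw [hid]; nlinarith [sq_nonneg (2 * a * x + b * y), sq_nonneg y]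
    rw [hxy] at hge
    nlinarith
  · rw [not_obs hc hq hr] at h2
    exact absurd h2 (by simp)
  · rw [List.any_eq_true] at h2
    obtain ⟨M, -, hM⟩ := h2
    exact rep_of_isTrans hM hr

end Pool.Agent.Lib.MP_e5c236_nt_cls
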