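import Pool.Agent.Lib.MP_e5c236_nt_cls.Res

/-!
The seventeen classes of primes.
-/

namespace Pool.Agent.Lib.MP_e5c236_nt_cls

open Pool.Agent.Lib.MP_e5c236 Pool.Agent.Lib.MP_e5c236_nt_AlmostAll
open scoped NumberTheorySymbols

lemma J4 {p : ℕ} (hp : Odd p) (m : ℤ) : J(4 * m | p) = J(m | p) := by
  rw [jacobiSym.mul_left, jacobiSym.at_four hp, one_mul]

lemma Jneg1 {p : ℕ} (hp : p % 4 = 1) (m : ℤ) : J((-1) * m | p) = J(m | p) := by
  rw [jacobiSym.mul_left, jacobiSym.at_neg_one (Nat.odd_iff.2 (by omega)),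
    ZMod.χ₄_nat_one_mod_four hp, one_mul]

lemma Jneg3 {p : ℕ} (hp : p % 4 = 3) (m : ℤ) : J((-1) * m | p) = -J(m | p) := by
  rw [jacobiSym.mul_left, jacobiSym.at_neg_one (Nat.odd_iff.2 (by omega)),
    ZMod.χ₄_nat_three_mod_four hp, neg_one_mul]

lemma J2pos {p : ℕ} (hp : p % 8 = 1 ∨ p % 8 = 7) (m : ℤ) : J(2 * m | p) = J(m | p) := by
  rw [jacobiSym.mul_left, jacobiSym.at_two (Nat.odd_iff.2 (by omega)),
    ZMod.χ₈_nat_eq_if_mod_eight]
  rcases hp with h | h
  · simp [h, show p % 2 = 1 by omega]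
  · simp [h, show p % 2 = 1 by omega]

lemma J2neg {p : ℕ} (hp : p % 8 = 3 ∨ p % 8 = 5) (m : ℤ) : J(2 * m | p) = -J(m | p) := by
  rw [jacobiSym.mul_left, jacobiSym.at_two (Nat.odd_iff.2 (by omega)),
    ZMod.χ₈_nat_eq_if_mod_eight]
  rcases hp with h | h
  · simp [h, show p % 2 = 1 by omega]
  · simp [h, show p % 2 = 1 by omega]

lemma Jr1 {p m : ℕ} (hp : Odd p) (hm : m % 4 = 1) : J((m : ℤ) | p) = J((p : ℤ) | m) :=
  jacobiSym.quadratic_reciprocity_one_mod_four hm hp

lemma Jr31 {p m : ℕ} (hm : m % 4 = 3) (hp : p % 4 = 1) : J((m : ℤ) | p) = J((p : ℤ) | m) :=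
  jacobiSym.quadratic_reciprocity_one_mod_four' (Nat.odd_iff.2 (by omega)) hp

lemma Jr33 {p m : ℕ} (hm : m % 4 = 3) (hp : p % 4 = 3) : J((m : ℤ) | p) = -J((p : ℤ) | m) :=
  jacobiSym.quadratic_reciprocity_three_mod_four hm hp

lemma Jmul2 (p a b : ℕ) [NeZero a] [NeZero b] :
    J((p : ℤ) | a * b) = J((p : ℤ) | a) * J((p : ℤ) | b) := jacobiSym.mul_right _ _ _


theorem cls_28 {p : ℕ} (hp : p.Prime) (h8 : p % 8 = 1 ∨ p % 8 = 5)
    (h7 : J(p | 7) = 1) : IsRep 4 4 p := by
  have hodd : Odd p := Nat.odd_iff.2 (by omega)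
  have hJ : J((28) | p) = 1 := by
    have e : (28 : ℤ) = 4 * ((7 : ℕ) : ℤ) := by norm_num
    rw [e, J4 hodd, Jr31 (by norm_num) (by omega), h7]
  have hr : Rep 1 6 2 p :=
    rep_of_check (D := 28) (F := (1, 6, 2))
      (cond := [(8, [1, 5]), (7, qr 7)])
      (mats := [(1, -3, 0, 1), (0, -1, 1, 1), (0, -1, 1, 2)])
      (K := 2) (by decide +kernel) (by decide +kernel) (by norm_num) (by norm_num) hp (by omega)
      (exists_dvd hp hJ)
      (List.forall_mem_cons.2 ⟨(by rcases h8 with h | h <;> rw [h] <;> decide), List.forall_mem_cons.2 ⟨(mem_qr (by norm_num) h7), List.forall_mem_nil _⟩⟩)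
      (by intro q hq; fin_cases hq <;> norm_num)
  exact typeI (a := 1) (b := 2) (c := 4) (d := 2) (m := 2) (k₁ := 6) (k₂ := 3) hp
    (by norm_num) (by norm_num) (by norm_num) (by norm_num) (by norm_num) (by norm_num)
    (by norm_num) (by norm_num) hp.one_lt.ne' (by omega) (by norm_num; exact hr)

theorem cls_132 {p : ℕ} (hp : p.Prime) (h8 : p % 2 = 1)
    (h3 : J(p | 3) = 1) (h11 : J(p | 11) = 1) : IsRep 4 4 p := by
  have hodd : Odd p := Nat.odd_iff.2 (by omega)
  have hJ : J((132) | p) = 1 := by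
    have e : (132 : ℤ) = 4 * ((3 * 11 : ℕ) : ℤ) := by norm_num
    rw [e, J4 hodd, Jr1 hodd (by norm_num), Jmul2, h3, h11]; norm_num
  have hr : Rep 1 12 3 p :=
    rep_of_check (D := 132) (F := (1, 12, 3))
      (cond := [(2, [1]), (3, qr 3), (11, qr 11)])
      (mats := [(1, -6, 0, 1), (0, -1, 1, 2)])
      (K := 5) (by decide +kernel) (by decide +kernel) (by norm_num) (by norm_num) hp (by omega)
      (exists_dvd hp hJ)
      (List.forall_mem_cons.2 ⟨(by rw [h8]; decide), List.forall_mem_cons.2 ⟨(mem_qr (by norm_num) h3), List.forall_mem_cons.2 ⟨(mem_qr (by norm_num) h11), List.forall_mem_nil _⟩⟩⟩)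
      (by intro q hq; fin_cases hq <;> norm_num)
  exact typeI (a := 1) (b := 3) (c := 9) (d := 3) (m := 3) (k₁ := 12) (k₂ := 4) hp
    (by norm_num) (by norm_num) (by norm_num) (by norm_num) (by norm_num) (by norm_num)
    (by norm_num) (by norm_num) hp.one_lt.ne' (by rintro rfl; exact absurd h3 (by norm_num)) (by norm_num; exact hr)

theorem cls_840a {p : ℕ} (hp : p.Prime) (h8 : p % 8 = 5 ∨ p % 8 = 7)
    (h3 : J(p | 3) = -1) (h5 : J(p | 5) = -1) (h7 : J(p | 7) = -1) : IsRep 4 4 p := by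
  have hodd : Odd p := Nat.odd_iff.2 (by omega)
  have hJ : J((-840) | p) = 1 := by
    have e : (-840 : ℤ) = 4 * ((-1) * (2 * ((3 * (5 * 7) : ℕ) : ℤ))) := by norm_num
    rw [e, J4 hodd]
    rcases h8 with h | h
    · rw [Jneg1 (by omega), J2neg (Or.inr h), Jr1 hodd (by norm_num), Jmul2, Jmul2, h3, h5, h7]
      norm_num
    · rw [Jneg3 (by omega), J2pos (Or.inr h), Jr1 hodd (by norm_num), Jmul2, Jmul2, h3, h5, h7]
      norm_num
  have hr : Rep 5 0 42 p :=
    rep_of_check (D := -840) (F := (5, 0, 42))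
      (cond := [(8, [5, 7]), (3, nqr 3), (5, nqr 5), (7, nqr 7)])
      (mats := [(1, 0, 0, 1)])
      (K := 16) (by decide +kernel) (by decide +kernel) (by norm_num) (by norm_num) hp (by omega)
      (exists_dvd hp hJ)
      (List.forall_mem_cons.2 ⟨(by rcases h8 with h | h <;> rw [h] <;> decide), List.forall_mem_cons.2 ⟨(mem_nqr (by norm_num) h3), List.forall_mem_cons.2 ⟨(mem_nqr (by norm_num) h5), List.forall_mem_cons.2 ⟨(mem_nqr (by norm_num) h7), List.forall_mem_nil _⟩⟩⟩⟩)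
      (by intro q hq; fin_cases hq <;> norm_num)
  exact typeII (a₁ := 2) (a₂ := 3) (c₁ := 6) (c₂ := 36) (m := 6) hp
    (by norm_num) (by norm_num) (by norm_num) (by norm_num) (by norm_num) (by norm_num)
    (by rintro rfl; exact absurd h5 (by norm_num)) (by rintro rfl; revert hp; norm_num) (by norm_num; exact hr)

theorem cls_840b {p : ℕ} (hp : p.Prime) (h8 : p % 8 = 5 ∨ p % 8 = 7)
    (h3 : J(p | 3) = 1) (h5 : J(p | 5) = -1) (h7 : J(p | 7) = 1) : IsRep 4 4 p := by
  have hodd : Odd p := Nat.odd_iff.2 (by omega)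
  have hJ : J((-840) | p) = 1 := by
    have e : (-840 : ℤ) = 4 * ((-1) * (2 * ((3 * (5 * 7) : ℕ) : ℤ))) := by norm_num
    rw [e, J4 hodd]
    rcases h8 with h | h
    · rw [Jneg1 (by omega), J2neg (Or.inr h), Jr1 hodd (by norm_num), Jmul2, Jmul2, h3, h5, h7]
      norm_num
    · rw [Jneg3 (by omega), J2pos (Or.inr h), Jr1 hodd (by norm_num), Jmul2, Jmul2, h3, h5, h7]
      norm_num
  have hr : Rep 7 0 30 p :=
    rep_of_check (D := -840) (F := (7, 0, 30))
      (cond := [(8, [5, 7]), (3, qr 3), (5, nqr 5), (7, qr 7)])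
      (mats := [(1, 0, 0, 1)])
      (K := 16) (by decide +kernel) (by decide +kernel) (by norm_num) (by norm_num) hp (by omega)
      (exists_dvd hp hJ)
      (List.forall_mem_cons.2 ⟨(by rcases h8 with h | h <;> rw [h] <;> decide), List.forall_mem_cons.2 ⟨(mem_qr (by norm_num) h3), List.forall_mem_cons.2 ⟨(mem_nqr (by norm_num) h5), List.forall_mem_cons.2 ⟨(mem_qr (by norm_num) h7), List.forall_mem_nil _⟩⟩⟩⟩)
      (by intro q hq; fin_cases hq <;> norm_num)
  exact typeII (a₁ := 1) (a₂ := 6) (c₁ := 12) (c₂ := 18) (m := 6) hp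
    (by norm_num) (by norm_num) (by norm_num) (by norm_num) (by norm_num) (by norm_num)
    (by rintro rfl; exact absurd h7 (by norm_num)) (by rintro rfl; revert hp; norm_num) (by norm_num; exact hr)

theorem cls_840c {p : ℕ} (hp : p.Prime) (h8 : p % 8 = 5 ∨ p % 8 = 7)
    (h3 : J(p | 3) = 1) (h5 : J(p | 5) = 1) (h7 : J(p | 7) = -1) : IsRep 4 4 p := by
  have hodd : Odd p := Nat.odd_iff.2 (by omega)
  have hJ : J((-840) | p) = 1 := by
    have e : (-840 : ℤ) = 4 * ((-1) * (2 * ((3 * (5 * 7) : ℕ) : ℤ))) := by norm_num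
    rw [e, J4 hodd]
    rcases h8 with h | h
    · rw [Jneg1 (by omega), J2neg (Or.inr h), Jr1 hodd (by norm_num), Jmul2, Jmul2, h3, h5, h7]
      norm_num
    · rw [Jneg3 (by omega), J2pos (Or.inr h), Jr1 hodd (by norm_num), Jmul2, Jmul2, h3, h5, h7]
      norm_num
  have hr : Rep 10 0 21 p :=
    rep_of_check (D := -840) (F := (10, 0, 21))
      (cond := [(8, [5, 7]), (3, qr 3), (5, qr 5), (7, nqr 7)])
      (mats := [(1, 0, 0, 1)])
      (K := 16) (by decide +kernel) (by decide +kernel) (by norm_num) (by norm_num) hp (by omega)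
      (exists_dvd hp hJ)
      (List.forall_mem_cons.2 ⟨(by rcases h8 with h | h <;> rw [h] <;> decide), List.forall_mem_cons.2 ⟨(mem_qr (by norm_num) h3), List.forall_mem_cons.2 ⟨(mem_qr (by norm_num) h5), List.forall_mem_cons.2 ⟨(mem_nqr (by norm_num) h7), List.forall_mem_nil _⟩⟩⟩⟩)
      (by intro q hq; fin_cases hq <;> norm_num)
  exact typeII (a₁ := 4) (a₂ := 6) (c₁ := 3) (c₂ := 18) (m := 6) hp
    (by norm_num) (by norm_num) (by norm_num) (by norm_num) (by norm_num) (by norm_num)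
    (by rintro rfl; revert hp; norm_num) (by rintro rfl; revert hp; norm_num) (by norm_num; exact hr)

theorem cls_840d {p : ℕ} (hp : p.Prime) (h8 : p % 8 = 5 ∨ p % 8 = 7)
    (h3 : J(p | 3) = -1) (h5 : J(p | 5) = 1) (h7 : J(p | 7) = 1) : IsRep 4 4 p := by
  have hodd : Odd p := Nat.odd_iff.2 (by omega)
  have hJ : J((-840) | p) = 1 := by
    have e : (-840 : ℤ) = 4 * ((-1) * (2 * ((3 * (5 * 7) : ℕ) : ℤ))) := by norm_num
    rw [e, J4 hodd]
    rcases h8 with h | h
    · rw [Jneg1 (by omega), J2neg (Or.inr h), Jr1 hodd (by norm_num), Jmul2, Jmul2, h3, h5, h7]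
      norm_num
    · rw [Jneg3 (by omega), J2pos (Or.inr h), Jr1 hodd (by norm_num), Jmul2, Jmul2, h3, h5, h7]
      norm_num
  have hr : Rep 14 0 15 p :=
    rep_of_check (D := -840) (F := (14, 0, 15))
      (cond := [(8, [5, 7]), (3, nqr 3), (5, qr 5), (7, qr 7)])
      (mats := [(1, 0, 0, 1)])
      (K := 16) (by decide +kernel) (by decide +kernel) (by norm_num) (by norm_num) hp (by omega)
      (exists_dvd hp hJ)
      (List.forall_mem_cons.2 ⟨(by rcases h8 with h | h <;> rw [h] <;> decide), List.forall_mem_cons.2 ⟨(mem_nqr (by norm_num) h3), List.forall_mem_cons.2 ⟨(mem_qr (by norm_num) h5), List.forall_mem_cons.2 ⟨(mem_qr (by norm_num) h7), List.forall_mem_nil _⟩⟩⟩⟩)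
      (by intro q hq; fin_cases hq <;> norm_num)
  exact typeII (a₁ := 2) (a₂ := 12) (c₁ := 6) (c₂ := 9) (m := 6) hp
    (by norm_num) (by norm_num) (by norm_num) (by norm_num) (by norm_num) (by norm_num)
    (by rintro rfl; revert hp; norm_num) (by rintro rfl; revert hp; norm_num) (by norm_num; exact hr)

theorem cls_660a {p : ℕ} (hp : p.Prime) (h8 : p % 8 = 1 ∨ p % 8 = 5)
    (h3 : J(p | 3) = -1) (h5 : J(p | 5) = -1) (h11 : J(p | 11) = 1) : IsRep 4 4 p := by
  have hodd : Odd p := Nat.odd_iff.2 (by omega)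
  have hJ : J((-660) | p) = 1 := by
    have e : (-660 : ℤ) = 4 * ((-1) * ((3 * (5 * 11) : ℕ) : ℤ)) := by norm_num
    rw [e, J4 hodd, Jneg1 (by omega), Jr1 hodd (by norm_num), Jmul2, Jmul2, h3, h5, h11]
    norm_num
  have hr : Rep 5 0 33 p :=
    rep_of_check (D := -660) (F := (5, 0, 33))
      (cond := [(8, [1, 5]), (3, nqr 3), (5, nqr 5), (11, qr 11)])
      (mats := [(1, 0, 0, 1)])
      (K := 14) (by decide +kernel) (by decide +kernel) (by norm_num) (by norm_num) hp (by omega)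
      (exists_dvd hp hJ)
      (List.forall_mem_cons.2 ⟨(by rcases h8 with h | h <;> rw [h] <;> decide), List.forall_mem_cons.2 ⟨(mem_nqr (by norm_num) h3), List.forall_mem_cons.2 ⟨(mem_nqr (by norm_num) h5), List.forall_mem_cons.2 ⟨(mem_qr (by norm_num) h11), List.forall_mem_nil _⟩⟩⟩⟩)
      (by intro q hq; fin_cases hq <;> norm_num)
  exact typeII (a₁ := 2) (a₂ := 3) (c₁ := 9) (c₂ := 24) (m := 6) hp
    (by norm_num) (by norm_num) (by norm_num) (by norm_num) (by norm_num) (by norm_num)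
    (by rintro rfl; exact absurd h5 (by norm_num)) (by rintro rfl; revert hp; norm_num) (by norm_num; exact hr)

theorem cls_660b {p : ℕ} (hp : p.Prime) (h8 : p % 8 = 3 ∨ p % 8 = 7)
    (h3 : J(p | 3) = -1) (h5 : J(p | 5) = 1) (h11 : J(p | 11) = 1) : IsRep 4 4 p := by
  have hodd : Odd p := Nat.odd_iff.2 (by omega)
  have hJ : J((-660) | p) = 1 := by
    have e : (-660 : ℤ) = 4 * ((-1) * ((3 * (5 * 11) : ℕ) : ℤ)) := by norm_num
    rw [e, J4 hodd, Jneg3 (by omega), Jr1 hodd (by norm_num), Jmul2, Jmul2, h3, h5, h11]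
    norm_num
  have hr : Rep 11 0 15 p :=
    rep_of_check (D := -660) (F := (11, 0, 15))
      (cond := [(8, [3, 7]), (3, nqr 3), (5, qr 5), (11, qr 11)])
      (mats := [(1, 0, 0, 1)])
      (K := 14) (by decide +kernel) (by decide +kernel) (by norm_num) (by norm_num) hp (by omega)
      (exists_dvd hp hJ)
      (List.forall_mem_cons.2 ⟨(by rcases h8 with h | h <;> rw [h] <;> decide), List.forall_mem_cons.2 ⟨(mem_nqr (by norm_num) h3), List.forall_mem_cons.2 ⟨(mem_qr (by norm_num) h5), List.forall_mem_cons.2 ⟨(mem_qr (by norm_num) h11), List.forall_mem_nil _⟩⟩⟩⟩)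
      (by intro q hq; fin_cases hq <;> norm_num)
  exact typeII (a₁ := 3) (a₂ := 8) (c₁ := 6) (c₂ := 9) (m := 6) hp
    (by norm_num) (by norm_num) (by norm_num) (by norm_num) (by norm_num) (by norm_num)
    (by rintro rfl; exact absurd h11 (by norm_num)) (by rintro rfl; revert hp; norm_num) (by norm_num; exact hr)

theorem cls_320 {p : ℕ} (hp : p.Prime) (h8 : p % 8 = 1)
    (h5 : J(p | 5) = 1) : IsRep 4 4 p := by
  have hodd : Odd p := Nat.odd_iff.2 (by omega)
  have hJ : J((320) | p) = 1 := by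
    have e : (320 : ℤ) = 4 * (4 * (4 * ((5 : ℕ) : ℤ))) := by norm_num
    rw [e, J4 hodd, J4 hodd, J4 hodd, Jr1 hodd (by norm_num), h5]
  have hr : Rep 1 18 1 p :=
    rep_of_check (D := 320) (F := (1, 18, 1))
      (cond := [(8, [1]), (5, qr 5)])
      (mats := [(1, -9, 0, 1)])
      (K := 8) (by decide +kernel) (by decide +kernel) (by norm_num) (by norm_num) hp (by omega)
      (exists_dvd hp hJ)
      (List.forall_mem_cons.2 ⟨(by rw [h8]; decide), List.forall_mem_cons.2 ⟨(mem_qr (by norm_num) h5), List.forall_mem_nil _⟩⟩)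
      (by intro q hq; fin_cases hq <;> norm_num)
  exact typeI (a := 1) (b := 9) (c := 9) (d := 1) (m := 3) (k₁ := 18) (k₂ := 18) hp
    (by norm_num) (by norm_num) (by norm_num) (by norm_num) (by norm_num) (by norm_num)
    (by norm_num) (by norm_num) hp.one_lt.ne' hp.one_lt.ne' (by norm_num; exact hr)

theorem cls_1740 {p : ℕ} (hp : p.Prime) (h8 : p % 8 = 3 ∨ p % 8 = 7)
    (h3 : J(p | 3) = -1) (h5 : J(p | 5) = -1) (h29 : J(p | 29) = -1) : IsRep 4 4 p := by
  have hodd : Odd p := Nat.odd_iff.2 (by omega)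
  have hJ : J((1740) | p) = 1 := by
    have e : (1740 : ℤ) = 4 * ((3 * (5 * 29) : ℕ) : ℤ) := by norm_num
    rw [e, J4 hodd, Jr33 (by norm_num) (by omega), Jmul2, Jmul2, h3, h5, h29]; norm_num
  have hr : Rep 2 42 3 p :=
    rep_of_check (D := 1740) (F := (2, 42, 3))
      (cond := [(8, [3, 7]), (3, nqr 3), (5, nqr 5), (29, nqr 29)])
      (mats := [(1, -11, 0, 1), (1, -10, 0, 1), (0, -1, 1, 7)])
      (K := 20) (by decide +kernel) (by decide +kernel) (by norm_num) (by norm_num) hp (by omega)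
      (exists_dvd hp hJ)
      (List.forall_mem_cons.2 ⟨(by rcases h8 with h | h <;> rw [h] <;> decide), List.forall_mem_cons.2 ⟨(mem_nqr (by norm_num) h3), List.forall_mem_cons.2 ⟨(mem_nqr (by norm_num) h5), List.forall_mem_cons.2 ⟨(mem_nqr (by norm_num) h29), List.forall_mem_nil _⟩⟩⟩⟩)
      (by intro q hq; fin_cases hq <;> norm_num)
  exact typeI (a := 2) (b := 6) (c := 36) (d := 3) (m := 6) (k₁ := 21) (k₂ := 14) hp
    (by norm_num) (by norm_num) (by norm_num) (by norm_num) (by norm_num) (by norm_num)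
    (by norm_num) (by norm_num) (by omega) (by rintro rfl; exact absurd h3 (by norm_num)) (by norm_num; exact hr)

theorem cls_3237 {p : ℕ} (hp : p.Prime) (h8 : p % 2 = 1)
    (h3 : J(p | 3) = 1) (h13 : J(p | 13) = 1) (h83 : J(p | 83) = 1) : IsRep 4 4 p := by
  have hodd : Odd p := Nat.odd_iff.2 (by omega)
  have hJ : J((3237) | p) = 1 := by
    have e : (3237 : ℤ) = ((3 * (13 * 83) : ℕ) : ℤ) := by norm_num
    rw [e, Jr1 hodd (by norm_num), Jmul2, Jmul2, h3, h13, h83]; norm_num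
  have hr : Rep 1 57 3 p :=
    rep_of_check (D := 3237) (F := (1, 57, 3))
      (cond := [(2, [1]), (3, qr 3), (13, qr 13), (83, qr 83)])
      (mats := [(1, -29, 0, 1), (1, -28, 0, 1), (0, -1, 1, 9), (0, -1, 1, 10)])
      (K := 28) (by decide +kernel) (by decide +kernel) (by norm_num) (by norm_num) hp (by omega)
      (exists_dvd hp hJ)
      (List.forall_mem_cons.2 ⟨(by rw [h8]; decide), List.forall_mem_cons.2 ⟨(mem_qr (by norm_num) h3), List.forall_mem_cons.2 ⟨(mem_qr (by norm_num) h13), List.forall_mem_cons.2 ⟨(mem_qr (by norm_num) h83), List.forall_mem_nil _⟩⟩⟩⟩)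
      (by intro q hq; fin_cases hq <;> norm_num)
  exact typeI (a := 1) (b := 9) (c := 48) (d := 3) (m := 6) (k₁ := 57) (k₂ := 19) hp
    (by norm_num) (by norm_num) (by norm_num) (by norm_num) (by norm_num) (by norm_num)
    (by norm_num) (by norm_num) hp.one_lt.ne' (by rintro rfl; exact absurd h3 (by norm_num)) (by norm_num; exact hr)

theorem cls_1092 {p : ℕ} (hp : p.Prime) (h8 : p % 8 = 3 ∨ p % 8 = 7)
    (h3 : J(p | 3) = 1) (h7 : J(p | 7) = 1) (h13 : J(p | 13) = -1) : IsRep 4 4 p := by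
  have hodd : Odd p := Nat.odd_iff.2 (by omega)
  have hJ : J((-1092) | p) = 1 := by
    have e : (-1092 : ℤ) = 4 * ((-1) * ((3 * (7 * 13) : ℕ) : ℤ)) := by norm_num
    rw [e, J4 hodd, Jneg3 (by omega), Jr1 hodd (by norm_num), Jmul2, Jmul2, h3, h7, h13]
    norm_num
  have hr : Rep 7 0 39 p :=
    rep_of_check (D := -1092) (F := (7, 0, 39))
      (cond := [(8, [3, 7]), (3, qr 3), (7, qr 7), (13, nqr 13)])
      (mats := [(1, 0, 0, 1)])
      (K := 19) (by decide +kernel) (by decide +kernel) (by norm_num) (by norm_num) hp (by omega)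
      (exists_dvd hp hJ)
      (List.forall_mem_cons.2 ⟨(by rcases h8 with h | h <;> rw [h] <;> decide), List.forall_mem_cons.2 ⟨(mem_qr (by norm_num) h3), List.forall_mem_cons.2 ⟨(mem_qr (by norm_num) h7), List.forall_mem_cons.2 ⟨(mem_nqr (by norm_num) h13), List.forall_mem_nil _⟩⟩⟩⟩)
      (by intro q hq; fin_cases hq <;> norm_num)
  exact typeII (a₁ := 3) (a₂ := 4) (c₁ := 3) (c₂ := 36) (m := 6) hp
    (by norm_num) (by norm_num) (by norm_num) (by norm_num) (by norm_num) (by norm_num)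
    (by rintro rfl; exact absurd h7 (by norm_num)) (by rintro rfl; revert hp; norm_num) (by norm_num; exact hr)

theorem cls_1248 {p : ℕ} (hp : p.Prime) (h8 : p % 8 = 7)
    (h3 : J(p | 3) = -1) (h13 : J(p | 13) = -1) : IsRep 4 4 p := by
  have hodd : Odd p := Nat.odd_iff.2 (by omega)
  have hJ : J((-1248) | p) = 1 := by
    have e : (-1248 : ℤ) = 4 * (4 * ((-1) * (2 * ((3 * 13 : ℕ) : ℤ)))) := by norm_num
    rw [e, J4 hodd, J4 hodd, Jneg3 (by omega), J2pos (Or.inr h8), Jr33 (by norm_num) (by omega),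
      Jmul2, h3, h13]
    norm_num
  have hr : Rep 8 0 39 p :=
    rep_of_check (D := -1248) (F := (8, 0, 39))
      (cond := [(8, [7]), (3, nqr 3), (13, nqr 13)])
      (mats := [(1, 0, 0, 1)])
      (K := 20) (by decide +kernel) (by decide +kernel) (by norm_num) (by norm_num) hp (by omega)
      (exists_dvd hp hJ)
      (List.forall_mem_cons.2 ⟨(by rw [h8]; decide), List.forall_mem_cons.2 ⟨(mem_nqr (by norm_num) h3), List.forall_mem_cons.2 ⟨(mem_nqr (by norm_num) h13), List.forall_mem_nil _⟩⟩⟩)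
      (by intro q hq; fin_cases hq <;> norm_num)
  exact typeII (a₁ := 2) (a₂ := 6) (c₁ := 3) (c₂ := 36) (m := 6) hp
    (by norm_num) (by norm_num) (by norm_num) (by norm_num) (by norm_num) (by norm_num)
    (by rintro rfl; revert hp; norm_num) (by rintro rfl; revert hp; norm_num) (by norm_num; exact hr)

theorem cls_1248a {p : ℕ} (hp : p.Prime) (h8 : p % 8 = 5)
    (h3 : J(p | 3) = 1) (h13 : J(p | 13) = -1) : IsRep 4 4 p := by
  have hodd : Odd p := Nat.odd_iff.2 (by omega)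
  have hJ : J((-1248) | p) = 1 := by
    have e : (-1248 : ℤ) = 4 * (4 * ((-1) * (2 * ((3 * 13 : ℕ) : ℤ)))) := by norm_num
    rw [e, J4 hodd, J4 hodd, Jneg1 (by omega), J2neg (Or.inr h8), Jr31 (by norm_num) (by omega),
      Jmul2, h3, h13]
    norm_num
  have hr : Rep 13 0 24 p :=
    rep_of_check (D := -1248) (F := (13, 0, 24))
      (cond := [(8, [5]), (3, qr 3), (13, nqr 13)])
      (mats := [(1, 0, 0, 1)])
      (K := 20) (by decide +kernel) (by decide +kernel) (by norm_num) (by norm_num) hp (by omega)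
      (exists_dvd hp hJ)
      (List.forall_mem_cons.2 ⟨(by rw [h8]; decide), List.forall_mem_cons.2 ⟨(mem_qr (by norm_num) h3), List.forall_mem_cons.2 ⟨(mem_nqr (by norm_num) h13), List.forall_mem_nil _⟩⟩⟩)
      (by intro q hq; fin_cases hq <;> norm_num)
  exact typeII (a₁ := 1) (a₂ := 12) (c₁ := 6) (c₂ := 18) (m := 6) hp
    (by norm_num) (by norm_num) (by norm_num) (by norm_num) (by norm_num) (by norm_num)
    (by rintro rfl; exact absurd h13 (by norm_num)) (by rintro rfl; revert hp; norm_num) (by norm_num; exact hr)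

theorem cls_672 {p : ℕ} (hp : p.Prime) (h8 : p % 8 = 7)
    (h3 : J(p | 3) = 1) (h7 : J(p | 7) = -1) : IsRep 4 4 p := by
  have hodd : Odd p := Nat.odd_iff.2 (by omega)
  have hJ : J((-672) | p) = 1 := by
    have e : (-672 : ℤ) = 4 * (4 * ((-1) * (2 * ((3 * 7 : ℕ) : ℤ)))) := by norm_num
    rw [e, J4 hodd, J4 hodd, Jneg3 (by omega), J2pos (Or.inr h8), Jr1 hodd (by norm_num),
      Jmul2, h3, h7]
    norm_num
  have hr : Rep 7 0 24 p :=
    rep_of_check (D := -672) (F := (7, 0, 24))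
      (cond := [(8, [7]), (3, qr 3), (7, nqr 7)])
      (mats := [(1, 0, 0, 1)])
      (K := 14) (by decide +kernel) (by decide +kernel) (by norm_num) (by norm_num) hp (by omega)
      (exists_dvd hp hJ)
      (List.forall_mem_cons.2 ⟨(by rw [h8]; decide), List.forall_mem_cons.2 ⟨(mem_qr (by norm_num) h3), List.forall_mem_cons.2 ⟨(mem_nqr (by norm_num) h7), List.forall_mem_nil _⟩⟩⟩)
      (by intro q hq; fin_cases hq <;> norm_num)
  exact typeII (a₁ := 3) (a₂ := 4) (c₁ := 6) (c₂ := 18) (m := 6) hp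
    (by norm_num) (by norm_num) (by norm_num) (by norm_num) (by norm_num) (by norm_num)
    (by rintro rfl; exact absurd h7 (by norm_num)) (by rintro rfl; revert hp; norm_num) (by norm_num; exact hr)

theorem cls_285 {p : ℕ} (hp : p.Prime) (h8 : p % 2 = 1)
    (h3 : J(p | 3) = 1) (h5 : J(p | 5) = 1) (h19 : J(p | 19) = 1) : IsRep 4 4 p := by
  have hodd : Odd p := Nat.odd_iff.2 (by omega)
  have hJ : J((285) | p) = 1 := by
    have e : (285 : ℤ) = ((3 * (5 * 19) : ℕ) : ℤ) := by norm_num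
    rw [e, Jr1 hodd (by norm_num), Jmul2, Jmul2, h3, h5, h19]; norm_num
  have hr : Rep 1 17 1 p :=
    rep_of_check (D := 285) (F := (1, 17, 1))
      (cond := [(2, [1]), (3, qr 3), (5, qr 5), (19, qr 19)])
      (mats := [(0, -1, 1, 8), (1, -8, 0, 1)])
      (K := 8) (by decide +kernel) (by decide +kernel) (by norm_num) (by norm_num) hp (by omega)
      (exists_dvd hp hJ)
      (List.forall_mem_cons.2 ⟨(by rw [h8]; decide), List.forall_mem_cons.2 ⟨(mem_qr (by norm_num) h3), List.forall_mem_cons.2 ⟨(mem_qr (by norm_num) h5), List.forall_mem_cons.2 ⟨(mem_qr (by norm_num) h19), List.forall_mem_nil _⟩⟩⟩⟩)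
      (by intro q hq; fin_cases hq <;> norm_num)
  exact typeI (a := 1) (b := 1) (c := 16) (d := 1) (m := 2) (k₁ := 17) (k₂ := 17) hp
    (by norm_num) (by norm_num) (by norm_num) (by norm_num) (by norm_num) (by norm_num)
    (by norm_num) (by norm_num) hp.one_lt.ne' hp.one_lt.ne' (by norm_num; exact hr)

theorem cls_96 {p : ℕ} (hp : p.Prime) (h8 : p % 8 = 1)
    (h3 : J(p | 3) = 1) : IsRep 4 4 p := by
  have hodd : Odd p := Nat.odd_iff.2 (by omega)
  have hJ : J((96) | p) = 1 := by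
    have e : (96 : ℤ) = 4 * (4 * (2 * ((3 : ℕ) : ℤ))) := by norm_num
    rw [e, J4 hodd, J4 hodd, J2pos (Or.inl h8), Jr31 (by norm_num) (by omega), h3]
  have hr : Rep 1 10 1 p :=
    rep_of_check (D := 96) (F := (1, 10, 1))
      (cond := [(8, [1]), (3, qr 3)])
      (mats := [(1, -5, 0, 1)])
      (K := 4) (by decide +kernel) (by decide +kernel) (by norm_num) (by norm_num) hp (by omega)
      (exists_dvd hp hJ)
      (List.forall_mem_cons.2 ⟨(by rw [h8]; decide), List.forall_mem_cons.2 ⟨(mem_qr (by norm_num) h3), List.forall_mem_nil _⟩⟩)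
      (by intro q hq; fin_cases hq <;> norm_num)
  exact typeI (a := 1) (b := 2) (c := 8) (d := 1) (m := 2) (k₁ := 10) (k₂ := 10) hp
    (by norm_num) (by norm_num) (by norm_num) (by norm_num) (by norm_num) (by norm_num)
    (by norm_num) (by norm_num) hp.one_lt.ne' hp.one_lt.ne' (by norm_num; exact hr)

end Pool.Agent.Lib.MP_e5c236_nt_cls
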