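import Mathlib

/-!
Reduction of binary quadratic forms and descent to positive solutions
(MP_e5c236, Q1, prime classes).
-/

namespace Pool.Agent.Lib.MP_e5c236_nt_cls

/-- `n` is a value of the form `a x^2 + b x y + c y^2`. -/
def Rep (a b c n : ℤ) : Prop := ∃ x y : ℤ, a * x ^ 2 + b * x * y + c * y ^ 2 = n

lemma ne_zero_of_disc {D a b c : ℤ} (hD : ¬ IsSquare D) (h : b ^ 2 - 4 * a * c = D) : a ≠ 0 := by
  rintro rfl
  exact hD ⟨b, by linarith [sq b]⟩

theorem exists_reduced {D n : ℤ} (hD : ¬ IsSquare D) :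
    ∀ (k : ℕ) (a b c : ℤ), a.natAbs = k → b ^ 2 - 4 * a * c = D → Rep a b c n →
      ∃ a b c : ℤ, b ^ 2 - 4 * a * c = D ∧ Rep a b c n ∧ |b| ≤ |a| ∧ |a| ≤ |c| := by
  intro k
  induction k using Nat.strong_induction_on with
  | _ k ih =>
    intro a b c hk hd hr
    have ha : a ≠ 0 := ne_zero_of_disc hD hd
    have hapos : 0 < |a| := abs_pos.mpr ha
    -- reduce `b` modulo `2 |a|`
    set r : ℤ := (b + |a|) % (2 * |a|) with hrdef
    have hr0 : 0 ≤ r := Int.emod_nonneg _ (by omega)
    have hr1 : r < 2 * |a| := Int.emod_lt_of_pos _ (by omega)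
    obtain ⟨q, hq⟩ : ∃ q : ℤ, b + |a| = 2 * |a| * q + r := ⟨(b + |a|) / (2 * |a|), by
      have := Int.mul_ediv_add_emod (b + |a|) (2 * |a|)
      rw [hrdef]; linarith⟩
    obtain ⟨t, ht⟩ : ∃ t : ℤ, r - |a| = b + 2 * a * t := by
      rcases abs_choice a with h | h
      · refine ⟨-q, ?_⟩
        rw [h] at hq ⊢; linarith
      · refine ⟨q, ?_⟩
        rw [h] at hq ⊢; linarith
    set b' : ℤ := b + 2 * a * t with hb'
    set c' : ℤ := c + b * t + a * t ^ 2 with hc'
    have hd' : b' ^ 2 - 4 * a * c' = D := by rw [hb', hc', ← hd]; ring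
    have hr' : Rep a b' c' n := by
      obtain ⟨x, y, hxy⟩ := hr
      refine ⟨x - t * y, y, ?_⟩
      rw [hb', hc', ← hxy]; ring
    have hbb : |b'| ≤ |a| := by
      rw [abs_le]; constructor <;> linarith
    by_cases hac : |a| ≤ |c'|
    · exact ⟨a, b', c', hd', hr', hbb, hac⟩
    · push Not at hac
      refine ih c'.natAbs ?_ c' b' a rfl (by rw [← hd']; ring) ?_
      · rw [← hk]
        have h1 : (c'.natAbs : ℤ) = |c'| := Int.natCast_natAbs c'
        have h2 : (a.natAbs : ℤ) = |a| := Int.natCast_natAbs a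
        have : (c'.natAbs : ℤ) < (a.natAbs : ℤ) := by rw [h1, h2]; exact hac
        exact_mod_cast this
      · obtain ⟨x, y, hxy⟩ := hr'
        exact ⟨y, x, by rw [← hxy]; ring⟩

lemma bound_pos {D a b c : ℤ} (hD : 0 < D) (h : b ^ 2 - 4 * a * c = D) (hb : |b| ≤ |a|)
    (ha : |a| ≤ |c|) : 4 * |a| ^ 2 ≤ D := by
  have h1 : b ^ 2 ≤ |a| ^ 2 := by rw [← sq_abs b]; exact pow_le_pow_left₀ (abs_nonneg _) hb 2
  have h2 : |a| ^ 2 ≤ |a * c| := by
    rw [abs_mul, sq]; exact mul_le_mul_of_nonneg_left ha (abs_nonneg _)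
  rcases le_or_gt 0 (a * c) with hac | hac
  · rw [abs_of_nonneg hac] at h2
    nlinarith [sq_nonneg (|a|)]
  · rw [abs_of_neg hac] at h2
    nlinarith [sq_nonneg b]

lemma bound_neg {D a b c : ℤ} (hD : D < 0) (h : b ^ 2 - 4 * a * c = D) (hb : |b| ≤ |a|)
    (ha : |a| ≤ |c|) : 3 * |a| ^ 2 ≤ -D := by
  have h1 : b ^ 2 ≤ |a| ^ 2 := by rw [← sq_abs b]; exact pow_le_pow_left₀ (abs_nonneg _) hb 2
  have h2 : |a| ^ 2 ≤ |a * c| := by
    rw [abs_mul, sq]; exact mul_le_mul_of_nonneg_left ha (abs_nonneg _)
  have hac : 0 < a * c := by nlinarith [sq_nonneg b]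
  rw [abs_of_pos hac] at h2
  nlinarith

lemma start {p : ℕ} (hp : p.Prime) (hp2 : p ≠ 2) {D : ℤ} (hD4 : D % 4 = 0 ∨ D % 4 = 1)
    (h : ∃ z : ℤ, (p : ℤ) ∣ z ^ 2 - D) : ∃ b c : ℤ, b ^ 2 - 4 * p * c = D := by
  obtain ⟨z, hz⟩ := h
  have hodd : (p : ℤ) % 2 = 1 := by
    have := hp.eq_two_or_odd
    omega
  obtain ⟨w, hw, hpar⟩ : ∃ w : ℤ, (p : ℤ) ∣ w ^ 2 - D ∧ w % 2 = D % 2 := by
    by_cases hzD : z % 2 = D % 2
    · exact ⟨z, hz, hzD⟩
    · refine ⟨z + p, ?_, by omega⟩
      have : (z + p) ^ 2 - D = (z ^ 2 - D) + p * (2 * z + p) := by ring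
      rw [this]
      exact dvd_add hz (Dvd.intro _ rfl)
  have h4 : (4 : ℤ) ∣ w ^ 2 - D := by
    rcases hD4 with h0 | h1
    · have hw0 : w % 2 = 0 := by omega
      obtain ⟨v, hv⟩ : (2 : ℤ) ∣ w := Int.dvd_of_emod_eq_zero hw0
      have : w ^ 2 = 4 * v ^ 2 := by rw [hv]; ring
      rw [this]
      omega
    · have hw0 : w % 2 = 1 := by omega
      obtain ⟨v, hv⟩ : ∃ v : ℤ, w = 2 * v + 1 := ⟨w / 2, by omega⟩
      have : w ^ 2 = 4 * (v ^ 2 + v) + 1 := by rw [hv]; ring
      rw [this]
      omega
  have hcop : IsCoprime (4 : ℤ) (p : ℤ) := by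
    have : IsCoprime (2 : ℤ) (p : ℤ) := by
      rw [Int.isCoprime_iff_gcd_eq_one]
      have h2 : Nat.Coprime 2 p := (Nat.coprime_primes Nat.prime_two hp).2 (Ne.symm hp2)
      simpa [Int.gcd] using h2
    have h4' : (4 : ℤ) = 2 * 2 := by norm_num
    rw [h4']
    exact this.mul_left this
  obtain ⟨c, hc⟩ := hcop.mul_dvd h4 hw
  exact ⟨w, c, by linarith⟩

/-- Reflections move a solution into the closed positive quadrant. -/
theorem pos_rep {a d k₁ k₂ B n : ℤ} (ha : 0 < a) (hd : 0 < d) (hB : 0 < B)
    (h1 : B = a * k₁) (h2 : B = d * k₂) (hn : 0 < n) :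
    ∀ (m : ℕ) (x y : ℤ), x.natAbs + y.natAbs = m → a * x ^ 2 + B * x * y + d * y ^ 2 = n →
      ∃ x y : ℤ, 0 ≤ x ∧ 0 ≤ y ∧ a * x ^ 2 + B * x * y + d * y ^ 2 = n := by
  intro m
  induction m using Nat.strong_induction_on with
  | _ m ih =>
    intro x y hm hxy
    have hk1 : 0 < k₁ := by
      by_contra hcon
      push Not at hcon
      nlinarith
    have hk2 : 0 < k₂ := by
      by_contra hcon
      push Not at hcon
      nlinarith
    by_cases hx : 0 ≤ x
    · by_cases hy : 0 ≤ y
      · exact ⟨x, y, hx, hy, hxy⟩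
      · push Not at hy
        -- x ≥ 0 > y
        rcases hx.lt_or_eq with hx0 | hx0
        swap
        · exact ⟨0, -y, le_rfl, by linarith, by rw [← hxy, ← hx0]; ring⟩
        by_cases hred : k₁ * (-y) < 2 * x
        · -- replace x by -k₁ y - x
          refine ih ((-k₁ * y - x).natAbs + y.natAbs) ?_ (-k₁ * y - x) y rfl ?_
          · have : (-k₁ * y - x).natAbs < x.natAbs := by
              have h3 : 0 < k₁ * (-y) := mul_pos hk1 (by linarith)
              have h4 : |(-k₁ * y - x)| < |x| := by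
                rw [abs_of_nonneg hx, abs_lt]; constructor <;> nlinarith
              have h5 := Int.natCast_natAbs (-k₁ * y - x)
              have h6 := Int.natCast_natAbs x
              omega
            omega
          · rw [← hxy, h1]; ring
        · push Not at hred
          refine ih (x.natAbs + (-k₂ * x - y).natAbs) ?_ x (-k₂ * x - y) rfl ?_
          · have h7 : k₂ * x < 2 * (-y) := by
              by_contra hcon
              push Not at hcon
              have e1 : a * x * (k₁ * (-y)) ≥ a * x * (2 * x) :=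
                mul_le_mul_of_nonneg_left hred (mul_nonneg ha.le hx)
              have e2 : d * (-y) * (k₂ * x) ≥ d * (-y) * (2 * (-y)) :=
                mul_le_mul_of_nonneg_left hcon (mul_nonneg hd.le (by linarith))
              have e3 : a * x * (k₁ * (-y)) = B * x * (-y) := by rw [h1]; ring
              have e4 : d * (-y) * (k₂ * x) = B * x * (-y) := by rw [h2]; ring
              nlinarith
            have : (-k₂ * x - y).natAbs < y.natAbs := by
              have h3 : 0 < k₂ * x := mul_pos hk2 hx0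
              have h4 : |(-k₂ * x - y)| < |y| := by
                rw [abs_of_neg hy, abs_lt]; constructor <;> nlinarith
              have h5 := Int.natCast_natAbs (-k₂ * x - y)
              have h6 := Int.natCast_natAbs y
              omega
            omega
          · rw [← hxy, h2]; ring
    · push Not at hx
      by_cases hy : y ≤ 0
      · refine ⟨-x, -y, by linarith, by linarith, ?_⟩
        rw [← hxy]; ring
      · push Not at hy
        -- x < 0 < y
        by_cases hred : k₁ * y < 2 * (-x)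
        · refine ih ((-k₁ * y - x).natAbs + y.natAbs) ?_ (-k₁ * y - x) y rfl ?_
          · have : (-k₁ * y - x).natAbs < x.natAbs := by
              have h3 : 0 < k₁ * y := mul_pos hk1 hy
              have h4 : |(-k₁ * y - x)| < |x| := by
                rw [abs_of_neg hx, abs_lt]; constructor <;> nlinarith
              have h5 := Int.natCast_natAbs (-k₁ * y - x)
              have h6 := Int.natCast_natAbs x
              omega
            omega
          · rw [← hxy, h1]; ring
        · push Not at hred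
          refine ih (x.natAbs + (-k₂ * x - y).natAbs) ?_ x (-k₂ * x - y) rfl ?_
          · have h7 : k₂ * (-x) < 2 * y := by
              by_contra hcon
              push Not at hcon
              have e1 : a * (-x) * (k₁ * y) ≥ a * (-x) * (2 * (-x)) :=
                mul_le_mul_of_nonneg_left hred (mul_nonneg ha.le (by linarith))
              have e2 : d * y * (k₂ * (-x)) ≥ d * y * (2 * y) :=
                mul_le_mul_of_nonneg_left hcon (mul_nonneg hd.le hy.le)
              have e3 : a * (-x) * (k₁ * y) = B * (-x) * y := by rw [h1]; ring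
              have e4 : d * y * (k₂ * (-x)) = B * (-x) * y := by rw [h2]; ring
              nlinarith
            have : (-k₂ * x - y).natAbs < y.natAbs := by
              have h3 : 0 < k₂ * (-x) := mul_pos hk2 (by linarith)
              have h4 : |(-k₂ * x - y)| < |y| := by
                rw [abs_of_pos hy, abs_lt]; constructor <;> nlinarith
              have h5 := Int.natCast_natAbs (-k₂ * x - y)
              have h6 := Int.natCast_natAbs y
              omega
            omega
          · rw [← hxy, h2]; ring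

end Pool.Agent.Lib.MP_e5c236_nt_cls
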