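import Pool.Agent.Lib.MP_e5c236_nt_cls.Classes

/-!
The pattern of a prime and the final statement.
-/

namespace Pool.Agent.Lib.MP_e5c236_nt_cls

open Pool.Agent.Lib.MP_e5c236 Pool.Agent.Lib.MP_e5c236_nt_AlmostAll
open scoped NumberTheorySymbols

/-- Seven patterns; `r` stands for `p % 8` and `eq` for the Legendre symbol `(p / q)`. -/
def GoodOne (r : ℕ) (e3 e5 e7 e11 e13 e19 e29 e83 : ℤ) : Prop :=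
  ((r = 1 ∨ r = 5) ∧ e7 = 1) ∨
  (e3 = 1 ∧ e11 = 1) ∨
  (r = 1 ∧ e5 = 1) ∨
  (r = 1 ∧ e3 = 1) ∨
  (e3 = 1 ∧ e5 = 1 ∧ e19 = 1) ∨
  ((r = 3 ∨ r = 7) ∧ e3 = -1 ∧ e5 = -1 ∧ e29 = -1) ∨
  (e3 = 1 ∧ e13 = 1 ∧ e83 = 1)

/-- Ten more patterns. -/
def GoodTwo (r : ℕ) (e3 e5 e7 e11 e13 : ℤ) : Prop :=
  ((r = 5 ∨ r = 7) ∧ e3 = -1 ∧ e5 = -1 ∧ e7 = -1) ∨
  ((r = 5 ∨ r = 7) ∧ e3 = 1 ∧ e5 = -1 ∧ e7 = 1) ∨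
  ((r = 5 ∨ r = 7) ∧ e3 = 1 ∧ e5 = 1 ∧ e7 = -1) ∨
  ((r = 5 ∨ r = 7) ∧ e3 = -1 ∧ e5 = 1 ∧ e7 = 1) ∨
  ((r = 1 ∨ r = 5) ∧ e3 = -1 ∧ e5 = -1 ∧ e11 = 1) ∨
  ((r = 3 ∨ r = 7) ∧ e3 = -1 ∧ e5 = 1 ∧ e11 = 1) ∨
  ((r = 3 ∨ r = 7) ∧ e3 = 1 ∧ e7 = 1 ∧ e13 = -1) ∨
  (r = 7 ∧ e3 = -1 ∧ e13 = -1) ∨
  (r = 5 ∧ e3 = 1 ∧ e13 = -1) ∨
  (r = 7 ∧ e3 = 1 ∧ e7 = -1)

/-- `r` stands for `p % 8` and `eq` for the Legendre symbol `(p / q)`. -/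
def GoodPattern (r : ℕ) (e3 e5 e7 e11 e13 e19 e29 e83 : ℤ) : Prop :=
  GoodOne r e3 e5 e7 e11 e13 e19 e29 e83 ∨ GoodTwo r e3 e5 e7 e11 e13

instance (r : ℕ) (e3 e5 e7 e11 e13 e19 e29 e83 : ℤ) :
    Decidable (GoodOne r e3 e5 e7 e11 e13 e19 e29 e83) := by
  unfold GoodOne; infer_instance

instance (r : ℕ) (e3 e5 e7 e11 e13 : ℤ) : Decidable (GoodTwo r e3 e5 e7 e11 e13) := by
  unfold GoodTwo; infer_instance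

instance (r : ℕ) (e3 e5 e7 e11 e13 e19 e29 e83 : ℤ) :
    Decidable (GoodPattern r e3 e5 e7 e11 e13 e19 e29 e83) := by
  unfold GoodPattern; infer_instance

theorem isRep_of_good {p : ℕ} (hp : p.Prime) (hp2 : p ≠ 2)
    (h : GoodPattern (p % 8) J(p | 3) J(p | 5) J(p | 7) J(p | 11) J(p | 13) J(p | 19) J(p | 29)
      J(p | 83)) : IsRep 4 4 p := by
  have hodd : p % 2 = 1 := by
    have := hp.eq_two_or_odd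
    omega
  unfold GoodPattern GoodOne GoodTwo at h
  rcases h with (⟨h8, h7⟩ | ⟨h3, h11⟩ | ⟨h8, h5⟩ | ⟨h8, h3⟩ | ⟨h3, h5, h19⟩ | ⟨h8, h3, h5, h29⟩ |
    ⟨h3, h13, h83⟩) | (⟨h8, h3, h5, h7⟩ | ⟨h8, h3, h5, h7⟩ | ⟨h8, h3, h5, h7⟩ |
    ⟨h8, h3, h5, h7⟩ | ⟨h8, h3, h5, h11⟩ | ⟨h8, h3, h5, h11⟩ | ⟨h8, h3, h7, h13⟩ | ⟨h8, h3, h13⟩ |
    ⟨h8, h3, h13⟩ | ⟨h8, h3, h7⟩)
  · exact cls_28 hp h8 h7
  · exact cls_132 hp hodd h3 h11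
  · exact cls_320 hp h8 h5
  · exact cls_96 hp h8 h3
  · exact cls_285 hp hodd h3 h5 h19
  · exact cls_1740 hp h8 h3 h5 h29
  · exact cls_3237 hp hodd h3 h13 h83
  · exact cls_840a hp h8 h3 h5 h7
  · exact cls_840b hp h8 h3 h5 h7
  · exact cls_840c hp h8 h3 h5 h7
  · exact cls_840d hp h8 h3 h5 h7
  · exact cls_660a hp h8 h3 h5 h11
  · exact cls_660b hp h8 h3 h5 h11
  · exact cls_1092 hp h8 h3 h7 h13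
  · exact cls_1248 hp h8 h3 h13
  · exact cls_1248a hp h8 h3 h13
  · exact cls_672 hp h8 h3 h7

/-- The sign `1` or `-1`. -/
def sg (b : Bool) : ℤ := if b then 1 else -1

theorem card_good : ((Finset.univ : Finset (Fin 4 × (Fin 8 → Bool))).filter fun x =>
    GoodPattern (2 * x.1.val + 1) (sg (x.2 0)) (sg (x.2 1)) (sg (x.2 2)) (sg (x.2 3)) (sg (x.2 4))
      (sg (x.2 5)) (sg (x.2 6)) (sg (x.2 7))).card = 866 := by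
  decide +kernel

end Pool.Agent.Lib.MP_e5c236_nt_cls
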