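import Pool.Agent.Lib.MP_e5c236_nt_cls.Check
import Pool.Agent.Lib.MP_e5c236.Defs
import Pool.Agent.Lib.MP_e5c236_nt_AlmostAll.Main

/-!
Residue lists, the final step from a representation by a form to `IsRep`.
-/

namespace Pool.Agent.Lib.MP_e5c236_nt_cls

open Pool.Agent.Lib.MP_e5c236 Pool.Agent.Lib.MP_e5c236_nt_AlmostAll
open scoped NumberTheorySymbols

/-- The non-zero squares modulo `q`. -/
def qr (q : ℕ) : List ℕ :=
  (List.range q).filter fun r => !(r == 0) && (List.range q).any fun x => x * x % q == r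

/-- The non-squares modulo `q`. -/
def nqr (q : ℕ) : List ℕ :=
  (List.range q).filter fun r => !(r == 0) && (List.range q).all fun x => !(x * x % q == r)

lemma mod_ne_zero {p q : ℕ} (hq : q.Prime) (h : J(p | q) ≠ 0) : p % q ≠ 0 := by
  intro h0
  apply h
  rw [jacobiSym.eq_zero_iff]
  refine ⟨hq.ne_zero, ?_⟩
  have hd : q ∣ p := Nat.dvd_of_mod_eq_zero h0
  have : Int.gcd (p : ℤ) (q : ℤ) = q := by
    rw [Int.gcd_natCast_natCast]; exact Nat.gcd_eq_right hd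
  rw [this]; exact hq.one_lt.ne'

lemma mem_qr {p q : ℕ} (hq : q.Prime) (h : J(p | q) = 1) : p % q ∈ qr q := by
  haveI : Fact q.Prime := ⟨hq⟩
  have hne := mod_ne_zero hq (by rw [h]; norm_num)
  obtain ⟨r, hr⟩ := ZMod.isSquare_of_jacobiSym_eq_one h
  unfold qr
  rw [List.mem_filter]
  refine ⟨List.mem_range.2 (Nat.mod_lt _ hq.pos), ?_⟩
  rw [Bool.and_eq_true]
  refine ⟨by simpa using hne, ?_⟩
  rw [List.any_eq_true]
  refine ⟨r.val, List.mem_range.2 (ZMod.val_lt r), ?_⟩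
  rw [beq_iff_eq]
  have h1 : ((p : ℕ) : ZMod q) = ((r.val * r.val : ℕ) : ZMod q) := by
    rw [Nat.cast_mul, ZMod.natCast_zmod_val]
    simpa using hr
  exact ((ZMod.natCast_eq_natCast_iff' _ _ _).1 h1).symm

lemma mem_nqr {p q : ℕ} (hq : q.Prime) (h : J(p | q) = -1) : p % q ∈ nqr q := by
  haveI : Fact q.Prime := ⟨hq⟩
  have hne := mod_ne_zero hq (by rw [h]; norm_num)
  have hns := ZMod.nonsquare_of_jacobiSym_eq_neg_one h
  unfold nqr
  rw [List.mem_filter]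
  refine ⟨List.mem_range.2 (Nat.mod_lt _ hq.pos), ?_⟩
  rw [Bool.and_eq_true]
  refine ⟨by simpa using hne, ?_⟩
  rw [List.all_eq_true]
  intro x _
  rw [Bool.not_eq_true', beq_eq_false_iff_ne]
  intro hx
  apply hns
  refine ⟨(x : ZMod q), ?_⟩
  have h1 : ((p : ℕ) : ZMod q) = ((x * x : ℕ) : ZMod q) := by
    rw [ZMod.natCast_eq_natCast_iff']; exact hx.symm
  rw [Nat.cast_mul] at h1
  simpa using h1

lemma exists_dvd {p : ℕ} (hp : p.Prime) {D : ℤ} (h : J(D | p) = 1) :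
    ∃ z : ℤ, (p : ℤ) ∣ z ^ 2 - D := by
  haveI : Fact p.Prime := ⟨hp⟩
  obtain ⟨r, hr⟩ := ZMod.isSquare_of_jacobiSym_eq_one h
  refine ⟨(r.val : ℤ), ?_⟩
  rw [← ZMod.intCast_zmod_eq_zero_iff_dvd]
  push_cast
  rw [ZMod.natCast_zmod_val, hr]; ring

lemma mul_sq_not_prime {p d y : ℕ} (hp : p.Prime) (hpd : p ≠ d) : p ≠ d * y ^ 2 := by
  intro h
  rw [h] at hp
  rcases Nat.prime_mul_iff.1 hp with ⟨-, h1⟩ | ⟨h1, -⟩
  · rw [h1, mul_one] at h; exact hpd h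
  · exact Nat.Prime.not_prime_pow (le_refl 2) h1

theorem typeI {p a b c d m : ℕ} (hp : p.Prime) (ha : 0 < a) (hb : 0 < b) (hc : 0 < c)
    (hd : 0 < d) (hm : 0 < m) {k₁ k₂ : ℤ} (h1 : (b : ℤ) + c = a * k₁) (h2 : (b : ℤ) + c = d * k₂)
    (hprod : a * b * c * d = m ^ 4) (hpa : p ≠ a) (hpd : p ≠ d)
    (hr : Rep a ((b : ℤ) + c) d p) : IsRep 4 4 p := by
  obtain ⟨x, y, hxy⟩ := hr
  obtain ⟨x, y, hx, hy, hxy⟩ := pos_rep (a := a) (d := d) (B := (b : ℤ) + c) (n := p)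
    (by exact_mod_cast ha) (by exact_mod_cast hd) (by positivity) h1 h2
    (by exact_mod_cast hp.pos) _ x y rfl hxy
  lift x to ℕ using hx
  lift y to ℕ using hy
  have hn : p = a * x ^ 2 + (b + c) * x * y + d * y ^ 2 := by exact_mod_cast hxy.symm
  have hx0 : x ≠ 0 := by
    rintro rfl
    exact mul_sq_not_prime (y := y) hp hpd (by rw [hn]; ring)
  have hy0 : y ≠ 0 := by
    rintro rfl
    exact mul_sq_not_prime (y := x) hp hpa (by rw [hn]; ring)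
  have hx1 := Nat.pos_of_ne_zero hx0
  have hy1 := Nat.pos_of_ne_zero hy0
  refine isRep_of (a * x ^ 2) (b * (x * y)) (c * (x * y)) (d * y ^ 2) (m * (x * y))
    (by positivity) (by positivity) (by positivity) (by positivity) (by positivity)
    (by rw [hn]; ring) ?_
  calc a * x ^ 2 * (b * (x * y)) * (c * (x * y)) * (d * y ^ 2)
      = (a * b * c * d) * (x * y) ^ 4 := by ring
    _ = (m * (x * y)) ^ 4 := by rw [hprod]; ring

theorem typeII {p a₁ a₂ c₁ c₂ m : ℕ} (hp : p.Prime) (ha : 0 < a₁) (hb : 0 < a₂) (hc : 0 < c₁)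
    (hd : 0 < c₂) (hm : 0 < m) (hprod : a₁ * a₂ * c₁ * c₂ = m ^ 4) (hpa : p ≠ a₁ + a₂)
    (hpd : p ≠ c₁ + c₂) (hr : Rep ((a₁ + a₂ : ℕ) : ℤ) 0 ((c₁ + c₂ : ℕ) : ℤ) p) : IsRep 4 4 p := by
  obtain ⟨x, y, hxy⟩ := hr
  have hn : p = (a₁ + a₂) * x.natAbs ^ 2 + (c₁ + c₂) * y.natAbs ^ 2 := by
    have : (p : ℤ) = ((a₁ + a₂) * x.natAbs ^ 2 + (c₁ + c₂) * y.natAbs ^ 2 : ℕ) := by
      rw [← hxy]; push_cast; rw [sq_abs, sq_abs]; ring
    exact_mod_cast this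
  have hx0 : x.natAbs ≠ 0 := by
    intro h0
    rw [h0] at hn
    exact mul_sq_not_prime (y := y.natAbs) hp hpd (by rw [hn]; ring)
  have hy0 : y.natAbs ≠ 0 := by
    intro h0
    rw [h0] at hn
    exact mul_sq_not_prime (y := x.natAbs) hp hpa (by rw [hn]; ring)
  have hx1 := Nat.pos_of_ne_zero hx0
  have hy1 := Nat.pos_of_ne_zero hy0
  refine isRep_of (a₁ * x.natAbs ^ 2) (a₂ * x.natAbs ^ 2) (c₁ * y.natAbs ^ 2) (c₂ * y.natAbs ^ 2)
    (m * (x.natAbs * y.natAbs))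
    (by positivity) (by positivity) (by positivity) (by positivity) (by positivity)
    (by rw [hn]; ring) ?_
  calc a₁ * x.natAbs ^ 2 * (a₂ * x.natAbs ^ 2) * (c₁ * y.natAbs ^ 2) * (c₂ * y.natAbs ^ 2)
      = (a₁ * a₂ * c₁ * c₂) * (x.natAbs * y.natAbs) ^ 4 := by ring
    _ = (m * (x.natAbs * y.natAbs)) ^ 4 := by rw [hprod]; ring

end Pool.Agent.Lib.MP_e5c236_nt_cls
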